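import Mathlib

/-! # Local covers: colouring lemma (MP_b47bfb_co, helper99) -/

set_option autoImplicit false

namespace Pool.Agent.J4.H99.LBC

open Finset

/-- a finite graph all of whose finite sets have a vertex of small degree can be coloured -/
lemma colour_degenerate {I : Type} [DecidableEq I] (rel : I → I → Prop) (hs : ∀ i j, rel i j → rel j i)
    (D : ℕ) (S : Finset I)
    (h : ∀ J : Finset I, J ⊆ S → J.Nonempty → ∃ i ∈ J, ∃ F : Finset I, F.card ≤ D ∧
      ∀ j ∈ J, rel i j → j ∈ F) :
    ∃ φ : I → Fin (D + 1), ∀ i ∈ S, ∀ j ∈ S, i ≠ j → rel i j → φ i ≠ φ j := by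
  classical
  suffices H : ∀ n : ℕ, ∀ J : Finset I, J ⊆ S → J.card = n →
      ∃ φ : I → Fin (D + 1), ∀ i ∈ J, ∀ j ∈ J, i ≠ j → rel i j → φ i ≠ φ j from
    H _ S (Finset.Subset.refl _) rfl
  intro n
  induction n with
  | zero =>
    intro J _ hJ
    rw [Finset.card_eq_zero] at hJ
    subst hJ
    exact ⟨fun _ => 0, by simp⟩
  | succ n ih =>
    intro J hJS hJ
    have hne : J.Nonempty := by rw [← Finset.card_pos]; omega
    obtain ⟨i, hi, F, hF, hF2⟩ := h J hJS hne
    obtain ⟨φ, hφ⟩ := ih (J.erase i) ((Finset.erase_subset _ _).trans hJS)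
      (by rw [Finset.card_erase_of_mem hi]; omega)
    obtain ⟨c, hc⟩ : ∃ c : Fin (D + 1), c ∉ F.image φ := by
      by_contra hcon
      push Not at hcon
      have h1 : (Finset.univ : Finset (Fin (D + 1))) ⊆ F.image φ := fun c _ => hcon c
      have h2 := Finset.card_le_card h1
      have h3 : (F.image φ).card ≤ F.card := Finset.card_image_le
      rw [Finset.card_univ, Fintype.card_fin] at h2
      omega
    refine ⟨Function.update φ i c, ?_⟩
    intro a ha b hb hab hr
    by_cases hai : a = i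
    · subst hai
      have hba : b ≠ a := fun h => hab h.symm
      rw [Function.update_self, Function.update_of_ne hba]
      intro hcb
      exact hc (Finset.mem_image.2 ⟨b, hF2 b hb hr, hcb.symm⟩)
    · by_cases hbi : b = i
      · subst hbi
        rw [Function.update_self, Function.update_of_ne hai]
        intro hcb
        exact hc (Finset.mem_image.2 ⟨a, hF2 a ha (hs _ _ hr), hcb⟩)
      · rw [Function.update_of_ne hai, Function.update_of_ne hbi]
        exact hφ a (Finset.mem_erase.2 ⟨hai, ha⟩) b (Finset.mem_erase.2 ⟨hbi, hb⟩) hab hr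

/-- degree count: an orientation with bounded out-degree gives a vertex of small degree -/
lemma exists_small {I : Type} [DecidableEq I] (out : I → Finset I) (d : ℕ)
    (hout : ∀ i, (out i).card ≤ d) (J : Finset I) (hJ : J.Nonempty) :
    ∃ i ∈ J, ∃ F : Finset I, F.card ≤ 2 * d ∧ ∀ j ∈ J, (j ∈ out i ∨ i ∈ out j) → j ∈ F := by
  classical
  by_contra hcon
  push Not at hcon
  have h1 : ∀ i ∈ J, 2 * d + 1 ≤ (J.filter (fun j => j ∈ out i)).card +
      (J.filter (fun j => i ∈ out j)).card := by
    intro i hi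
    by_contra hlt
    push Not at hlt
    obtain ⟨j, hj, h2, h3⟩ := hcon i hi
      (J.filter (fun j => j ∈ out i) ∪ J.filter (fun j => i ∈ out j))
      ((Finset.card_union_le _ _).trans (by omega))
    apply h3
    rw [Finset.mem_union, Finset.mem_filter, Finset.mem_filter]
    rcases h2 with h2 | h2
    · exact Or.inl ⟨hj, h2⟩
    · exact Or.inr ⟨hj, h2⟩
  have h2 : ∑ i ∈ J, (J.filter (fun j => i ∈ out j)).card =
      ∑ i ∈ J, (J.filter (fun j => j ∈ out i)).card := by
    simp only [Finset.card_filter]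
    rw [Finset.sum_comm]
  have h3 : ∑ i ∈ J, (J.filter (fun j => j ∈ out i)).card ≤ ∑ _i ∈ J, d := by
    refine Finset.sum_le_sum fun i _ => ?_
    refine le_trans (Finset.card_le_card ?_) (hout i)
    intro j hj
    exact (Finset.mem_filter.1 hj).2
  have h4 : ∑ i ∈ J, (2 * d + 1) ≤ ∑ i ∈ J, ((J.filter (fun j => j ∈ out i)).card +
      (J.filter (fun j => i ∈ out j)).card) := Finset.sum_le_sum h1
  rw [Finset.sum_add_distrib (g := fun i => (J.filter (fun j => i ∈ out j)).card), h2] at h4
  rw [Finset.sum_const, smul_eq_mul] at h3 h4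
  have h5 : 0 < J.card := Finset.card_pos.2 hJ
  nlinarith

/-- the functional codes: partial functions given by `r` pairs -/
def Fun' {N q r : ℕ} (c : Fin r → Fin N × Fin q) : Prop :=
  ∀ j j', (c j).1 = (c j').1 → (c j).2 = (c j').2

/-- `x` extends the partial function `c` -/
def Ext {N q r : ℕ} (c : Fin r → Fin N × Fin q) (x : Fin N → Fin q) : Prop :=
  ∀ j, x (c j).1 = (c j).2

open Classical in
/-- many functions extend a partial function with `r` values -/
lemma card_ext {N q r : ℕ} (c : Fin r → Fin N × Fin q) (hc : Fun' c) :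
    q ^ N ≤ (univ.filter (fun x : Fin N → Fin q => Ext c x)).card * q ^ r := by
  have h1 : (univ : Finset (Fin N → Fin q)).card ≤
      ((univ.filter (fun x : Fin N → Fin q => Ext c x)) ×ˢ
        (univ : Finset (Fin r → Fin q))).card := by
    refine Finset.card_le_card_of_injOn (fun x => (fun a => if h : ∃ j, (c j).1 = a then
      (c h.choose).2 else x a, fun j => x (c j).1)) ?_ ?_
    · intro x _
      rw [Finset.mem_coe, Finset.mem_product]
      refine ⟨?_, Finset.mem_univ _⟩
      rw [Finset.mem_filter]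
      refine ⟨Finset.mem_univ _, fun j => ?_⟩
      have h : ∃ j', (c j').1 = (c j).1 := ⟨j, rfl⟩
      simp only [h, dif_pos]
      exact hc _ _ h.choose_spec
    · intro x _ y _ hxy
      simp only [Prod.mk.injEq] at hxy
      obtain ⟨h1, h2⟩ := hxy
      funext a
      by_cases h : ∃ j, (c j).1 = a
      · obtain ⟨j, rfl⟩ := h
        exact congrFun h2 j
      · have := congrFun h1 a
        simp only [h, dif_neg, not_false_iff] at this
        exact this
  rw [Finset.card_product, Finset.card_univ, Finset.card_univ, Fintype.card_fun,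
    Fintype.card_fun, Fintype.card_fin, Fintype.card_fin, Fintype.card_fin] at h1
  exact h1

open Classical in
/-- one function extends a `q^{-r}`-proportion of the codes of a set -/
lemma exists_good {N q r : ℕ} (hq : 0 < q) (C : Finset (Fin r → Fin N × Fin q)) (hC : ∀ c ∈ C, Fun' c) :
    ∃ x : Fin N → Fin q, C.card ≤ (C.filter (fun c => Ext c x)).card * q ^ r := by
  by_contra hcon
  push Not at hcon
  have h1 : ∑ x : Fin N → Fin q, ((C.filter (fun c => Ext c x)).card * q ^ r) <
      ∑ _x : Fin N → Fin q, C.card := by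
    have : NeZero q := ⟨hq.ne'⟩
    exact Finset.sum_lt_sum_of_nonempty ⟨fun _ => 0, Finset.mem_univ _⟩ (fun x _ => hcon x)
  rw [← Finset.sum_mul, Finset.sum_const, Finset.card_univ, Fintype.card_fun, Fintype.card_fin,
    Fintype.card_fin, smul_eq_mul] at h1
  have h2 : ∑ x : Fin N → Fin q, (C.filter (fun c => Ext c x)).card =
      ∑ c ∈ C, (univ.filter (fun x : Fin N → Fin q => Ext c x)).card := by
    simp only [Finset.card_filter]
    rw [Finset.sum_comm]
  rw [h2, Finset.sum_mul] at h1
  have h3 : ∑ _c ∈ C, q ^ N ≤ ∑ c ∈ C, (univ.filter (fun x : Fin N → Fin q => Ext c x)).card * q ^ r :=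
    Finset.sum_le_sum fun c hc => card_ext c (hC c hc)
  rw [Finset.sum_const, smul_eq_mul, mul_comm] at h3
  exact absurd (lt_of_le_of_lt h3 h1) (lt_irrefl _)

open Classical in
/-- few functions extend all codes -/
lemma exists_family {N q r : ℕ} (hq : 0 < q) (T : ℕ) (hT : (N * q) ^ r * (q ^ r - 1) ^ T < q ^ (r * T)) :
    ∃ X : Fin T → Fin N → Fin q, ∀ c : Fin r → Fin N × Fin q, Fun' c → ∃ j, Ext c (X j) := by
  suffices H : ∀ n : ℕ, ∃ X : Fin n → Fin N → Fin q,
      (univ.filter (fun c : Fin r → Fin N × Fin q => Fun' c ∧ ∀ j, ¬ Ext c (X j))).card * q ^ (r * n) ≤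
        (N * q) ^ r * (q ^ r - 1) ^ n by
    obtain ⟨X, hX⟩ := H T
    refine ⟨X, fun c hc => ?_⟩
    by_contra hcon
    push Not at hcon
    have h1 : 1 ≤ (univ.filter (fun c : Fin r → Fin N × Fin q =>
        Fun' c ∧ ∀ j, ¬ Ext c (X j))).card := by
      rw [Nat.one_le_iff_ne_zero, Finset.card_ne_zero]
      exact ⟨c, Finset.mem_filter.2 ⟨Finset.mem_univ _, hc, hcon⟩⟩
    have h2 := lt_of_le_of_lt hX hT
    have h3 : 1 * q ^ (r * T) ≤ (univ.filter (fun c : Fin r → Fin N × Fin q =>
        Fun' c ∧ ∀ j, ¬ Ext c (X j))).card * q ^ (r * T) := Nat.mul_le_mul_right _ h1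
    omega
  intro n
  induction n with
  | zero =>
    refine ⟨Fin.elim0, ?_⟩
    simp only [Nat.mul_zero, pow_zero, mul_one]
    refine le_trans (Finset.card_le_univ _) ?_
    rw [Fintype.card_fun, Fintype.card_prod, Fintype.card_fin, Fintype.card_fin, Fintype.card_fin]
  | succ n ih =>
    obtain ⟨X, hX⟩ := ih
    set C := univ.filter (fun c : Fin r → Fin N × Fin q => Fun' c ∧ ∀ j, ¬ Ext c (X j)) with hCd
    obtain ⟨x, hx⟩ := exists_good hq C (fun c hc => (Finset.mem_filter.1 hc).2.1)
    refine ⟨Fin.snoc X x, ?_⟩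
    have h1 : (univ.filter (fun c : Fin r → Fin N × Fin q => Fun' c ∧
        ∀ j, ¬ Ext c ((Fin.snoc X x : Fin (n + 1) → Fin N → Fin q) j))) =
        C.filter (fun c => ¬ Ext c x) := by
      ext c
      rw [Finset.mem_filter, Finset.mem_filter, hCd, Finset.mem_filter]
      constructor
      · rintro ⟨h0, h1, h2⟩
        refine ⟨⟨h0, h1, fun j => ?_⟩, ?_⟩
        · have := h2 j.castSucc
          rwa [Fin.snoc_castSucc] at this
        · have := h2 (Fin.last n)
          rwa [Fin.snoc_last] at this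
      · rintro ⟨⟨h0, h1, h2⟩, h3⟩
        refine ⟨h0, h1, fun j => ?_⟩
        refine Fin.lastCases ?_ (fun j => ?_) j
        · rwa [Fin.snoc_last]
        · rw [Fin.snoc_castSucc]
          exact h2 j
    rw [h1]
    have h2 : (C.filter (fun c => Ext c x)).card + (C.filter (fun c => ¬ Ext c x)).card = C.card :=
      Finset.card_filter_add_card_filter_not _
    have h3 : (C.filter (fun c => ¬ Ext c x)).card * q ^ r ≤ C.card * (q ^ r - 1) := by
      have hq1 : 1 ≤ q ^ r := Nat.one_le_pow _ _ hq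
      rw [← h2] at hx ⊢
      set a := (C.filter (fun c => Ext c x)).card
      set b := (C.filter (fun c => ¬ Ext c x)).card
      obtain ⟨Q, hQ⟩ : ∃ Q, q ^ r = Q + 1 := ⟨q ^ r - 1, by omega⟩
      rw [hQ] at hx ⊢
      rw [Nat.add_sub_cancel]
      nlinarith
    calc (C.filter (fun c => ¬ Ext c x)).card * q ^ (r * (n + 1))
        = ((C.filter (fun c => ¬ Ext c x)).card * q ^ r) * q ^ (r * n) := by ring
      _ ≤ (C.card * (q ^ r - 1)) * q ^ (r * n) := Nat.mul_le_mul_right _ h3
      _ = (C.card * q ^ (r * n)) * (q ^ r - 1) := by ring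
      _ ≤ ((N * q) ^ r * (q ^ r - 1) ^ n) * (q ^ r - 1) := Nat.mul_le_mul_right _ hX
      _ = (N * q) ^ r * (q ^ r - 1) ^ (n + 1) := by ring

/-- **The colouring lemma.** -/
theorem core {V I : Type} [Fintype V] [DecidableEq V] [DecidableEq I] (G : SimpleGraph V) (q k r T : ℕ)
    (hq : 0 < q) (mem : V → Finset I) (lab : V → I → Fin q) (z : Fin q)
    (hr : ∀ v, (mem v).card ≤ r)
    (hadj : ∀ u v, G.Adj u v → ∃ i, i ∈ mem u ∧ i ∈ mem v ∧ lab u i ≠ lab v i)
    (hk : ∀ i, (univ.filter (fun v => i ∈ mem v ∧ lab v i ≠ z)).card ≤ k)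
    (hT : ((2 * (k * (r - 1)) + 1) * q) ^ r * (q ^ r - 1) ^ T < q ^ (r * T)) : G.Colorable T := by
  classical
  -- the number of colours is positive
  have hT0 : 0 < T := by
    rcases Nat.eq_zero_or_pos T with h | h
    · subst h
      simp only [pow_zero, mul_one, Nat.mul_zero] at hT
      have h1 : 0 < (2 * (k * (r - 1)) + 1) * q := by positivity
      have h2 : 1 ≤ ((2 * (k * (r - 1)) + 1) * q) ^ r := Nat.one_le_pow _ _ h1
      omega
    · exact h
  -- the conflict graph
  let out : I → Finset I := fun i =>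
    (univ.filter (fun v => i ∈ mem v ∧ lab v i ≠ z)).biUnion (fun v => (mem v).erase i)
  have hout : ∀ i, (out i).card ≤ k * (r - 1) := by
    intro i
    refine le_trans Finset.card_biUnion_le ?_
    refine le_trans (Finset.sum_le_card_nsmul _ _ (r - 1) ?_) ?_
    · intro v hv
      rw [Finset.card_erase_of_mem (Finset.mem_filter.1 hv).2.1]
      have := hr v
      omega
    · rw [smul_eq_mul]
      exact Nat.mul_le_mul_right _ (hk i)
  let rel : I → I → Prop := fun i j => i ≠ j ∧ ∃ v, i ∈ mem v ∧ j ∈ mem v ∧ lab v i ≠ lab v j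
  have hrel : ∀ i j, rel i j → j ∈ out i ∨ i ∈ out j := by
    rintro i j ⟨hij, v, hi, hj, hl⟩
    by_cases h : lab v i = z
    · right
      have h2 : lab v j ≠ z := fun h3 => hl (h.trans h3.symm)
      exact Finset.mem_biUnion.2 ⟨v, Finset.mem_filter.2 ⟨Finset.mem_univ _, hj, h2⟩,
        Finset.mem_erase.2 ⟨hij, hi⟩⟩
    · left
      exact Finset.mem_biUnion.2 ⟨v, Finset.mem_filter.2 ⟨Finset.mem_univ _, hi, h⟩,
        Finset.mem_erase.2 ⟨hij.symm, hj⟩⟩
  obtain ⟨φ, hφ⟩ := colour_degenerate rel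
    (fun i j ⟨h1, v, h2, h3, h4⟩ => ⟨h1.symm, v, h3, h2, h4.symm⟩) (2 * (k * (r - 1)))
    (univ.biUnion mem) (fun J _ hJ => by
      obtain ⟨i, hi, F, hF, hF2⟩ := exists_small out (k * (r - 1)) hout J hJ
      exact ⟨i, hi, F, hF, fun j hj hr => hF2 j hj (hrel i j hr)⟩)
  have hfun : ∀ v, ∀ i ∈ mem v, ∀ j ∈ mem v, φ i = φ j → lab v i = lab v j := by
    intro v i hi j hj hij
    by_contra hl
    have hne : i ≠ j := fun h => hl (by rw [h])
    exact hφ i (Finset.mem_biUnion.2 ⟨v, Finset.mem_univ _, hi⟩) j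
      (Finset.mem_biUnion.2 ⟨v, Finset.mem_univ _, hj⟩) hne ⟨hne, v, hi, hj, hl⟩ hij
  obtain ⟨X, hX⟩ := exists_family hq T hT
  -- every vertex belongs to a colour class
  have hcol : ∀ v, ∃ j : Fin T, ∀ i ∈ mem v, X j (φ i) = lab v i := by
    intro v
    rcases (mem v).eq_empty_or_nonempty with h0 | ⟨i0, hi0⟩
    · exact ⟨⟨0, hT0⟩, by simp [h0]⟩
    · -- a list of the elements of `mem v` of length `r`
      obtain ⟨e, he⟩ : ∃ e : Fin r → I, (∀ j, e j ∈ mem v) ∧ ∀ i ∈ mem v, ∃ j, e j = i := by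
        let l := (mem v).toList
        have hl : l.length ≤ r := by
          rw [Finset.length_toList]
          exact hr v
        refine ⟨fun j => if h : (j : ℕ) < l.length then l.get ⟨j, h⟩ else i0, ?_, ?_⟩
        · intro j
          by_cases h : (j : ℕ) < l.length
          · simp only [h, dif_pos]
            exact Finset.mem_toList.1 (List.get_mem _ _)
          · simp only [h, dif_neg, not_false_iff]
            exact hi0
        · intro i hi
          obtain ⟨n, hn⟩ := List.get_of_mem (Finset.mem_toList.2 hi)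
          refine ⟨⟨n, lt_of_lt_of_le n.2 hl⟩, ?_⟩
          have hn2 : (n : ℕ) < l.length := n.2
          simp only [hn2, dif_pos]
          exact hn
      obtain ⟨he1, he2⟩ := he
      obtain ⟨j, hj⟩ := hX (fun j => (φ (e j), lab v (e j)))
        (fun j j' h => hfun v _ (he1 j) _ (he1 j') h)
      refine ⟨j, fun i hi => ?_⟩
      obtain ⟨n, rfl⟩ := he2 i hi
      exact hj n
  choose col hcol using hcol
  refine ⟨SimpleGraph.Coloring.mk col ?_⟩
  intro u v huv hc
  obtain ⟨i, hu, hv, hl⟩ := hadj u v huv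
  apply hl
  rw [← hcol u i hu, ← hcol v i hv, hc]

end Pool.Agent.J4.H99.LBC
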