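import Pool.Agent.J4.H99.LBC.Core

/-! # Local covers: bicliques, graphs without induced matchings (MP_b47bfb_co, helper99) -/

set_option autoImplicit false

namespace Pool.Agent.J4.H99.LBC

open Finset

/-- `K_m` is a minor of `G`. -/
def Minor {V : Type} (G : SimpleGraph V) (m : ℕ) : Prop :=
  ∃ B : Fin m → Set V, (∀ i, (G.induce (B i)).Connected) ∧
    (∀ i j, i ≠ j → Disjoint (B i) (B j)) ∧
    ∀ i j, i ≠ j → ∃ u ∈ B i, ∃ v ∈ B j, G.Adj u v

lemma conn_one {V : Type} (G : SimpleGraph V) (a : V) : (G.induce ({a} : Set V)).Connected := by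
  have : Nonempty ({a} : Set V) := ⟨⟨a, rfl⟩⟩
  refine ⟨fun x y => ?_⟩
  have : x = y := Subtype.ext (x.2.trans y.2.symm)
  rw [this]

/-- a complete bipartite subgraph gives a clique minor with one vertex more -/
lemma minor_of_biclique {V : Type} (G : SimpleGraph V) (k : ℕ) (a b : Fin (k + 1) → V)
    (ha : Function.Injective a) (hb : Function.Injective b) (hab : ∀ i j, G.Adj (a i) (b j)) :
    Minor G (k + 2) := by
  have hne : ∀ i j, a i ≠ b j := fun i j h => G.ne_of_adj (hab i j) h
  -- the branch sets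
  let B : Fin (k + 2) → Set V := fun i =>
    if h : (i : ℕ) < k then {a ⟨i, by omega⟩, b ⟨i, by omega⟩}
    else if (i : ℕ) = k then {a (Fin.last k)} else {b (Fin.last k)}
  have hB1 : ∀ i : Fin (k + 2), ∀ h : (i : ℕ) < k, B i = {a ⟨i, by omega⟩, b ⟨i, by omega⟩} := by
    intro i h
    simp only [B, h, dif_pos]
  have hB2 : ∀ i : Fin (k + 2), (i : ℕ) = k → B i = {a (Fin.last k)} := by
    intro i h
    have h2 : ¬ (i : ℕ) < k := by omega
    simp only [B]
    rw [dif_neg h2, if_pos h]
  have hB3 : ∀ i : Fin (k + 2), (i : ℕ) = k + 1 → B i = {b (Fin.last k)} := by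
    intro i h
    have h2 : ¬ (i : ℕ) < k := by omega
    have h3 : ¬ (i : ℕ) = k := by omega
    simp only [B, h2, dif_neg, not_false_iff, h3, if_false]
  have hcase : ∀ i : Fin (k + 2), (i : ℕ) < k ∨ (i : ℕ) = k ∨ (i : ℕ) = k + 1 := fun i => by
    have := i.2
    omega
  have key : ∀ i j : Fin (k + 2), (i : ℕ) < j → Disjoint (B i) (B j) ∧
      ∃ u ∈ B i, ∃ v ∈ B j, G.Adj u v := by
    intro i j hij
    rcases hcase j with hj | hj | hj
    · have hi : (i : ℕ) < k := by omega
      rw [hB1 i hi, hB1 j hj]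
      have h1 : (⟨i, by omega⟩ : Fin (k + 1)) ≠ ⟨j, by omega⟩ := by
        intro h
        rw [Fin.mk.injEq] at h
        omega
      refine ⟨?_, _, Set.mem_insert _ _, _, Set.mem_insert_of_mem _ rfl, hab _ _⟩
      rw [Set.disjoint_left]
      rintro x (rfl | hx) (hy | hy)
      · exact h1 (ha hy)
      · exact hne _ _ hy
      · rw [Set.mem_singleton_iff] at hx
        exact hne _ _ (hy.symm.trans hx)
      · rw [Set.mem_singleton_iff] at hx hy
        exact h1 (hb (hx.symm.trans hy))
    · have hi : (i : ℕ) < k := by omega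
      rw [hB1 i hi, hB2 j hj]
      have h1 : (⟨i, by omega⟩ : Fin (k + 1)) ≠ Fin.last k := by
        intro h
        rw [Fin.ext_iff, Fin.val_last] at h
        simp only at h
        omega
      refine ⟨?_, _, Set.mem_insert_of_mem _ rfl, _, rfl, (hab _ _).symm⟩
      rw [Set.disjoint_left]
      rintro x (rfl | hx) hy
      · exact h1 (ha hy)
      · rw [Set.mem_singleton_iff] at hx hy
        exact hne _ _ (hy.symm.trans hx)
    · rw [hB3 j hj]
      rcases hcase i with hi | hi | hi
      · rw [hB1 i hi]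
        have h1 : (⟨i, by omega⟩ : Fin (k + 1)) ≠ Fin.last k := by
          intro h
          rw [Fin.ext_iff, Fin.val_last] at h
          simp only at h
          omega
        refine ⟨?_, _, Set.mem_insert _ _, _, rfl, hab _ _⟩
        rw [Set.disjoint_left]
        rintro x (rfl | hx) hy
        · exact hne _ _ hy
        · rw [Set.mem_singleton_iff] at hx hy
          exact h1 (hb (hx.symm.trans hy))
      · rw [hB2 i hi]
        refine ⟨?_, _, rfl, _, rfl, hab _ _⟩
        rw [Set.disjoint_left]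
        intro x hx hy
        rw [Set.mem_singleton_iff] at hx hy
        exact hne _ _ (hx.symm.trans hy)
      · omega
  refine ⟨B, ?_, ?_, ?_⟩
  · intro i
    rcases hcase i with hi | hi | hi
    · rw [hB1 i hi]
      exact SimpleGraph.induce_pair_connected_of_adj (hab _ _)
    · rw [hB2 i hi]
      exact conn_one G _
    · rw [hB3 i hi]
      exact conn_one G _
  · intro i j hij
    rcases Nat.lt_or_gt_of_ne (fun h => hij (Fin.ext h)) with h | h
    · exact (key i j h).1
    · exact (key j i h).1.symm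
  · intro i j hij
    rcases Nat.lt_or_gt_of_ne (fun h => hij (Fin.ext h)) with h | h
    · exact (key i j h).2
    · obtain ⟨u, hu, v, hv, huv⟩ := (key j i h).2
      exact ⟨v, hv, u, hu, huv.symm⟩

/-- `k + 1` different elements of a set with more than `k` elements -/
lemma exists_inj {V : Type} [Finite V] (S : Set V) (k : ℕ) (h : k < S.ncard) :
    ∃ a : Fin (k + 1) → V, Function.Injective a ∧ ∀ i, a i ∈ S := by
  classical
  have hS : S.Finite := Set.toFinite S
  obtain ⟨T, hT, hc⟩ := Set.exists_subset_card_eq (s := S) (n := k + 1) (by omega)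
  have hTf : T.Finite := hS.subset hT
  have hTc : hTf.toFinset.card = k + 1 := by
    rw [← Set.ncard_eq_toFinset_card]
    exact hc
  let e := hTf.toFinset.equivFinOfCardEq hTc
  refine ⟨fun i => (e.symm i).1, ?_, ?_⟩
  · intro i j hij
    exact e.symm.injective (Subtype.ext hij)
  · intro i
    exact hT (hTf.mem_toFinset.1 (e.symm i).2)

/-- **Bicliques.** -/
theorem biclique_main {V I : Type} [Finite V] (G : SimpleGraph V) (r k T : ℕ) (A B : I → Set V)
    (h1 : ∀ i, ∀ a ∈ A i, ∀ b ∈ B i, G.Adj a b)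
    (h2 : ∀ u v, G.Adj u v → ∃ i, u ∈ A i ∧ v ∈ B i ∨ v ∈ A i ∧ u ∈ B i)
    (h3 : ∀ v, {i | v ∈ A i ∨ v ∈ B i}.encard ≤ r)
    (hT : ((2 * (k * (r - 1)) + 1) * 2) ^ r * (2 ^ r - 1) ^ T < 2 ^ (r * T))
    (hcol : ¬ G.Colorable T) :
    ∃ a b : Fin (k + 1) → V, Function.Injective a ∧ Function.Injective b ∧ ∀ i j, G.Adj (a i) (b j) := by
  classical
  have := Fintype.ofFinite V
  by_contra hcon
  push Not at hcon
  apply hcol
  have hdis : ∀ i v, v ∈ A i → v ∈ B i → False := fun i v ha hb => G.irrefl (h1 i v ha v hb)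
  have hfin : ∀ v, {i | v ∈ A i ∨ v ∈ B i}.Finite := fun v =>
    Set.finite_of_encard_le_coe (h3 v)
  have hsmall : ∀ i, (A i).ncard ≤ k ∨ (B i).ncard ≤ k := by
    intro i
    by_contra h
    push Not at h
    obtain ⟨a, ha1, ha2⟩ := exists_inj (A i) k h.1
    obtain ⟨b, hb1, hb2⟩ := exists_inj (B i) k h.2
    obtain ⟨x, y, hxy⟩ := hcon a b ha1 hb1
    exact hxy (h1 i _ (ha2 x) _ (hb2 y))
  let S : I → Set V := fun i => if (A i).ncard ≤ k then A i else B i
  have hSc : ∀ i, (S i).ncard ≤ k := by
    intro i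
    by_cases h : (A i).ncard ≤ k
    · simp only [S, h, if_true]
    · simp only [S, h, if_false]
      exact (hsmall i).resolve_left h
  let mem : V → Finset I := fun v => (hfin v).toFinset
  have hmem : ∀ v i, i ∈ mem v ↔ (v ∈ A i ∨ v ∈ B i) := by
    intro v i
    simp only [mem, Set.Finite.mem_toFinset, Set.mem_ofPred_eq]
  let lab : V → I → Fin 2 := fun v i => if v ∈ S i then 1 else 0
  refine core G 2 k r T (by norm_num) mem lab 0 ?_ ?_ ?_ hT
  · intro v
    have h := h3 v
    rw [(hfin v).encard_eq_coe_toFinset_card] at h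
    exact_mod_cast h
  · intro u v huv
    have key : ∀ u v i, u ∈ A i → v ∈ B i → lab u i ≠ lab v i := by
      intro u v i hu hv
      by_cases h : (A i).ncard ≤ k
      · have e1 : u ∈ S i := by simp only [S, h, if_true]; exact hu
        have e2 : v ∉ S i := by
          simp only [S, h, if_true]
          exact fun h' => hdis i v h' hv
        simp only [lab, e1, e2, if_true, if_false]
        exact one_ne_zero
      · have e1 : u ∉ S i := by
          simp only [S, h, if_false]
          exact fun h' => hdis i u hu h'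
        have e2 : v ∈ S i := by simp only [S, h, if_false]; exact hv
        simp only [lab, e1, e2, if_true, if_false]
        exact zero_ne_one
    obtain ⟨i, ⟨hu, hv⟩ | ⟨hv, hu⟩⟩ := h2 u v huv
    · exact ⟨i, (hmem u i).2 (Or.inl hu), (hmem v i).2 (Or.inr hv), key u v i hu hv⟩
    · exact ⟨i, (hmem u i).2 (Or.inr hu), (hmem v i).2 (Or.inl hv), (key v u i hv hu).symm⟩
  · intro i
    refine le_trans ?_ (hSc i)
    rw [← Set.ncard_coe_finset]
    refine Set.ncard_le_ncard ?_ (Set.toFinite _)
    intro v hv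
    rw [Finset.mem_coe, Finset.mem_filter] at hv
    by_contra h
    apply hv.2.2
    simp only [lab, h, if_false]

/-- Ramsey's theorem with an elementary bound -/
lemma ramsey {E : Type} [DecidableEq E] (rel : E → E → Prop) [DecidableRel rel]
    (hs : ∀ a b, rel a b → rel b a) (m : ℕ) (hm : 0 < m) : ∀ (d : ℕ) (S : Finset E), m ^ d ≤ S.card →
    (¬ ∃ J ⊆ S, J.card = d + 1 ∧ ∀ a ∈ J, ∀ b ∈ J, a ≠ b → ¬ rel a b) →
    ∃ C ⊆ S, C.card = m ∧ ∀ a ∈ C, ∀ b ∈ C, a ≠ b → rel a b := by
  intro d
  induction d with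
  | zero =>
    intro S hS hno
    exfalso
    apply hno
    rw [pow_zero] at hS
    obtain ⟨x, hx⟩ := Finset.card_pos.1 (by omega : 0 < S.card)
    refine ⟨{x}, Finset.singleton_subset_iff.2 hx, by simp, ?_⟩
    intro a ha b hb hab
    rw [Finset.mem_singleton] at ha hb
    exact absurd (ha.trans hb.symm) hab
  | succ d ih =>
    intro S hS hno
    by_cases hv : ∃ v ∈ S, m ^ d ≤ (S.filter (fun w => w ≠ v ∧ ¬ rel v w)).card
    · obtain ⟨v, hvS, hv⟩ := hv
      obtain ⟨C, hC, h1, h2⟩ := ih _ hv (by
        rintro ⟨J, hJ, hJc, hJ2⟩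
        apply hno
        have hvJ : v ∉ J := fun h => (Finset.mem_filter.1 (hJ h)).2.1 rfl
        refine ⟨insert v J, ?_, ?_, ?_⟩
        · intro x hx
          rcases Finset.mem_insert.1 hx with rfl | hx
          · exact hvS
          · exact (Finset.mem_filter.1 (hJ hx)).1
        · rw [Finset.card_insert_of_notMem hvJ, hJc]
        · intro a ha b hb hab
          rcases Finset.mem_insert.1 ha with ha' | ha'
          · rcases Finset.mem_insert.1 hb with hb' | hb'
            · exact absurd (ha'.trans hb'.symm) hab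
            · rw [ha']
              exact (Finset.mem_filter.1 (hJ hb')).2.2
          · rcases Finset.mem_insert.1 hb with hb' | hb'
            · rw [hb']
              exact fun h => (Finset.mem_filter.1 (hJ ha')).2.2 (hs _ _ h)
            · exact hJ2 a ha' b hb' hab)
      exact ⟨C, hC.trans (Finset.filter_subset _ _), h1, h2⟩
    · push Not at hv
      suffices H : ∀ j : ℕ, j ≤ m → ∃ C ⊆ S, C.card = j ∧ ∀ a ∈ C, ∀ b ∈ C, a ≠ b → rel a b from
        H m le_rfl
      intro j
      induction j with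
      | zero =>
        intro _
        exact ⟨∅, Finset.empty_subset _, by simp, by simp⟩
      | succ j ihj =>
        intro hj
        obtain ⟨C, hC, hCc, hC2⟩ := ihj (by omega)
        -- a further element
        obtain ⟨x, hx, hxC⟩ : ∃ x ∈ S, x ∉ C.biUnion (fun v =>
            insert v (S.filter (fun w => w ≠ v ∧ ¬ rel v w))) := by
          by_contra hcon
          push Not at hcon
          have e1 : S ⊆ C.biUnion (fun v => insert v (S.filter (fun w => w ≠ v ∧ ¬ rel v w))) := hcon
          have e2 := Finset.card_le_card e1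
          have e3 : (C.biUnion (fun v => insert v (S.filter (fun w => w ≠ v ∧ ¬ rel v w)))).card ≤
              C.card * m ^ d := by
            refine le_trans Finset.card_biUnion_le ?_
            rw [← smul_eq_mul]
            refine Finset.sum_le_card_nsmul _ _ _ ?_
            intro v hvC
            have := hv v (hC hvC)
            exact (Finset.card_insert_le _ _).trans (by omega)
          have e4 : j * m ^ d < m ^ (d + 1) := by
            rw [pow_succ, mul_comm]
            exact Nat.mul_lt_mul_of_pos_left (by omega) (by positivity)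
          rw [hCc] at e3
          omega
        have hxC' : x ∉ C := fun h => hxC (Finset.mem_biUnion.2 ⟨x, h, Finset.mem_insert_self _ _⟩)
        have hrel : ∀ v ∈ C, rel v x := by
          intro v hvC
          by_contra h
          exact hxC (Finset.mem_biUnion.2 ⟨v, hvC, Finset.mem_insert_of_mem
            (Finset.mem_filter.2 ⟨hx, fun h' => hxC' (h' ▸ hvC), h⟩)⟩)
        refine ⟨insert x C, ?_, ?_, ?_⟩
        · intro y hy
          rcases Finset.mem_insert.1 hy with rfl | hy
          · exact hx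
          · exact hC hy
        · rw [Finset.card_insert_of_notMem hxC', hCc]
        · intro a ha b hb hab
          rcases Finset.mem_insert.1 ha with ha' | ha'
          · rcases Finset.mem_insert.1 hb with hb' | hb'
            · exact absurd (ha'.trans hb'.symm) hab
            · rw [ha']
              exact hs _ _ (hrel b hb')
          · rcases Finset.mem_insert.1 hb with hb' | hb'
            · rw [hb']
              exact hrel a ha'
            · exact hC2 a ha' b hb' hab

/-- a matching, as a set of ordered pairs -/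
def Matching {V : Type} (H : SimpleGraph V) (M : Finset (V × V)) : Prop :=
  (∀ e ∈ M, H.Adj e.1 e.2) ∧
  ∀ e ∈ M, ∀ f ∈ M, e ≠ f → e.1 ≠ f.1 ∧ e.1 ≠ f.2 ∧ e.2 ≠ f.1 ∧ e.2 ≠ f.2

/-- an induced matching with `q` edges -/
def IndMatch {V : Type} (H : SimpleGraph V) (q : ℕ) : Prop :=
  ∃ a b : Fin q → V, (∀ i, H.Adj (a i) (b i)) ∧ ∀ i j, i ≠ j →
    (a i ≠ a j ∧ a i ≠ b j ∧ b i ≠ b j) ∧
    ¬ H.Adj (a i) (a j) ∧ ¬ H.Adj (a i) (b j) ∧ ¬ H.Adj (b i) (b j)

/-- a large matching in a graph without induced matching of `d + 1` edges gives a clique minor -/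
lemma minor_of_matching {V : Type} [DecidableEq V] (G H : SimpleGraph V) (hHG : H ≤ G) (m d : ℕ)
    (hm : 0 < m) (M : Finset (V × V)) (hM : Matching H M) (hc : m ^ d ≤ M.card)
    (hno : ¬ IndMatch H (d + 1)) : Minor G m := by
  classical
  let rel : V × V → V × V → Prop := fun e f =>
    H.Adj e.1 f.1 ∨ H.Adj e.1 f.2 ∨ H.Adj e.2 f.1 ∨ H.Adj e.2 f.2
  have hs : ∀ a b, rel a b → rel b a := by
    rintro a b (h | h | h | h)
    · exact Or.inl h.symm
    · exact Or.inr (Or.inr (Or.inl h.symm))
    · exact Or.inr (Or.inl h.symm)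
    · exact Or.inr (Or.inr (Or.inr h.symm))
  obtain ⟨C, hC, hCc, hC2⟩ := ramsey rel hs m hm d M hc (by
    rintro ⟨J, hJ, hJc, hJ2⟩
    apply hno
    let e := J.equivFinOfCardEq hJc
    refine ⟨fun i => (e.symm i).1.1, fun i => (e.symm i).1.2, ?_, ?_⟩
    · intro i
      exact hM.1 _ (hJ (e.symm i).2)
    · intro i j hij
      have hne : (e.symm i).1 ≠ (e.symm j).1 := fun h => hij (e.symm.injective (Subtype.ext h))
      obtain ⟨h1, h2, h3, h4⟩ := hM.2 _ (hJ (e.symm i).2) _ (hJ (e.symm j).2) hne
      have h5 := hJ2 _ (e.symm i).2 _ (e.symm j).2 hne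
      refine ⟨⟨h1, h2, h4⟩, fun h => h5 (Or.inl h), fun h => h5 (Or.inr (Or.inl h)),
        fun h => h5 (Or.inr (Or.inr (Or.inr h)))⟩)
  let e := C.equivFinOfCardEq hCc
  refine ⟨fun i => {(e.symm i).1.1, (e.symm i).1.2}, ?_, ?_, ?_⟩
  · intro i
    exact SimpleGraph.induce_pair_connected_of_adj (hHG (hM.1 _ (hC (e.symm i).2)))
  · intro i j hij
    have hne : (e.symm i).1 ≠ (e.symm j).1 := fun h => hij (e.symm.injective (Subtype.ext h))
    obtain ⟨h1, h2, h3, h4⟩ := hM.2 _ (hC (e.symm i).2) _ (hC (e.symm j).2) hne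
    rw [Set.disjoint_left]
    rintro x (rfl | hx) (hy | hy)
    · exact h1 hy
    · exact h2 hy
    · rw [Set.mem_singleton_iff] at hx
      exact h3 (hx.symm.trans hy)
    · rw [Set.mem_singleton_iff] at hx hy
      exact h4 (hx.symm.trans hy)
  · intro i j hij
    have hne : (e.symm i).1 ≠ (e.symm j).1 := fun h => hij (e.symm.injective (Subtype.ext h))
    rcases hC2 _ (e.symm i).2 _ (e.symm j).2 hne with h | h | h | h
    · exact ⟨_, Set.mem_insert _ _, _, Set.mem_insert _ _, hHG h⟩
    · exact ⟨_, Set.mem_insert _ _, _, Set.mem_insert_of_mem _ rfl, hHG h⟩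
    · exact ⟨_, Set.mem_insert_of_mem _ rfl, _, Set.mem_insert _ _, hHG h⟩
    · exact ⟨_, Set.mem_insert_of_mem _ rfl, _, Set.mem_insert_of_mem _ rfl, hHG h⟩

/-- **Covers by `p`-colourable graphs without induced matching of `d + 1` edges.** -/
theorem general_main {V I : Type} [Finite V] (G : SimpleGraph V) (r p d m T : ℕ) (hm : 0 < m)
    (H : I → SimpleGraph V) (h0 : ∀ i, H i ≤ G)
    (h1 : ∀ u v, G.Adj u v → ∃ i, (H i).Adj u v)
    (h2 : ∀ v, {i | ∃ w, (H i).Adj v w}.encard ≤ r)
    (h3 : ∀ i, (H i).Colorable p) (h4 : ∀ i, ¬ IndMatch (H i) (d + 1))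
    (hT : ((2 * (2 * (m ^ d - 1) * (r - 1)) + 1) * (p + 1)) ^ r * ((p + 1) ^ r - 1) ^ T <
      (p + 1) ^ (r * T))
    (hcol : ¬ G.Colorable T) : Minor G m := by
  classical
  have := Fintype.ofFinite V
  by_contra hcon
  apply hcol
  -- maximal matchings
  have hmat : ∀ i, ∃ M : Finset (V × V), Matching (H i) M ∧ M.card ≤ m ^ d - 1 ∧
      ∀ u v, (H i).Adj u v → (∃ e ∈ M, u = e.1 ∨ u = e.2) ∨ (∃ e ∈ M, v = e.1 ∨ v = e.2) := by
    intro i
    obtain ⟨M, hM, hmax⟩ := Finset.exists_max_image
      ((univ : Finset (Finset (V × V))).filter (fun M => Matching (H i) M)) Finset.card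
      ⟨∅, Finset.mem_filter.2 ⟨Finset.mem_univ _, by simp, by simp⟩⟩
    rw [Finset.mem_filter] at hM
    refine ⟨M, hM.2, ?_, ?_⟩
    · by_contra h
      exact hcon (minor_of_matching G (H i) (h0 i) m d hm M hM.2 (by omega) (h4 i))
    · intro u v huv
      by_contra h
      push Not at h
      obtain ⟨hu, hv⟩ := h
      have huv' : u ≠ v := (H i).ne_of_adj huv
      have hnot : (u, v) ∉ M := fun h => (hu _ h).1 rfl
      have h5 : Matching (H i) (insert (u, v) M) := by
        constructor
        · intro e he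
          rcases Finset.mem_insert.1 he with rfl | he
          · exact huv
          · exact hM.2.1 e he
        · intro e he f hf hef
          rcases Finset.mem_insert.1 he with rfl | he
          · rcases Finset.mem_insert.1 hf with rfl | hf
            · exact absurd rfl hef
            · exact ⟨(hu f hf).1, (hu f hf).2, (hv f hf).1, (hv f hf).2⟩
          · rcases Finset.mem_insert.1 hf with rfl | hf
            · exact ⟨(hu e he).1.symm, (hv e he).1.symm, (hu e he).2.symm, (hv e he).2.symm⟩
            · exact hM.2.2 e he f hf hef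
      have h6 := hmax _ (Finset.mem_filter.2 ⟨Finset.mem_univ _, h5⟩)
      rw [Finset.card_insert_of_notMem hnot] at h6
      omega
  choose M hM1 hM2 hM3 using hmat
  have hcl : ∀ i, ∃ c : V → Fin p, ∀ u v, (H i).Adj u v → c u ≠ c v := by
    intro i
    obtain ⟨c⟩ := h3 i
    exact ⟨c, fun u v h => c.valid h⟩
  choose c hc using hcl
  have hfin : ∀ v, {i | ∃ w, (H i).Adj v w}.Finite := fun v => Set.finite_of_encard_le_coe (h2 v)
  let mem : V → Finset I := fun v => (hfin v).toFinset
  have hmem : ∀ v i, i ∈ mem v ↔ ∃ w, (H i).Adj v w := by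
    intro v i
    simp only [mem, Set.Finite.mem_toFinset, Set.mem_ofPred_eq]
  let lab : V → I → Fin (p + 1) := fun v i =>
    if ∃ e ∈ M i, v = e.1 ∨ v = e.2 then (c i v).succ else 0
  refine core G (p + 1) (2 * (m ^ d - 1)) r T (by omega) mem lab 0 ?_ ?_ ?_ hT
  · intro v
    have h := h2 v
    rw [(hfin v).encard_eq_coe_toFinset_card] at h
    exact_mod_cast h
  · intro u v huv
    obtain ⟨i, hi⟩ := h1 u v huv
    refine ⟨i, (hmem u i).2 ⟨v, hi⟩, (hmem v i).2 ⟨u, hi.symm⟩, ?_⟩
    by_cases hu : ∃ e ∈ M i, u = e.1 ∨ u = e.2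
    · by_cases hv : ∃ e ∈ M i, v = e.1 ∨ v = e.2
      · simp only [lab, hu, hv, if_true]
        intro h
        exact hc i u v hi (Fin.succ_injective _ h)
      · simp only [lab, hu, hv, if_true, if_false]
        exact Fin.succ_ne_zero _
    · have hv : ∃ e ∈ M i, v = e.1 ∨ v = e.2 := (hM3 i u v hi).resolve_left hu
      simp only [lab, hu, hv, if_true, if_false]
      exact (Fin.succ_ne_zero _).symm
  · intro i
    have e1 : (univ.filter (fun v => i ∈ mem v ∧ lab v i ≠ 0)) ⊆
        (M i).image Prod.fst ∪ (M i).image Prod.snd := by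
      intro v hv
      rw [Finset.mem_filter] at hv
      by_cases h : ∃ e ∈ M i, v = e.1 ∨ v = e.2
      · obtain ⟨e, he, h | h⟩ := h
        · exact Finset.mem_union_left _ (Finset.mem_image.2 ⟨e, he, h.symm⟩)
        · exact Finset.mem_union_right _ (Finset.mem_image.2 ⟨e, he, h.symm⟩)
      · exfalso
        apply hv.2.2
        simp only [lab, h, if_false]
    refine (Finset.card_le_card e1).trans ((Finset.card_union_le _ _).trans ?_)
    have e2 := Finset.card_image_le (s := M i) (f := Prod.fst)
    have e3 := Finset.card_image_le (s := M i) (f := Prod.snd)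
    have e4 := hM2 i
    omega

end Pool.Agent.J4.H99.LBC
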