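import Pool.Agent.J4.H99.LBC.Covers

/-! # Local covers: numerical conditions (MP_b47bfb_co, helper99) -/

set_option autoImplicit false

namespace Pool.Agent.J4.H99.LBC

lemma num {Q r X T : ℕ} (hQ : 1 ≤ Q) (hr : 1 ≤ r) (hT : 1 ≤ T)
    (h : (X : ℝ) ≤ Real.exp ((T : ℝ) / ((r : ℝ) * (Q : ℝ) ^ r))) :
    X ^ r * (Q ^ r - 1) ^ T < Q ^ (r * T) := by
  have hQ' : (0 : ℝ) < (Q : ℝ) ^ r := by
    have : (0 : ℝ) < Q := by exact_mod_cast hQ
    positivity
  have hr' : (0 : ℝ) < r := by exact_mod_cast hr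
  have h1 : (X : ℝ) ^ r ≤ Real.exp ((T : ℝ) / (Q : ℝ) ^ r) := by
    refine (pow_le_pow_left₀ (Nat.cast_nonneg _) h r).trans (le_of_eq ?_)
    rw [← Real.exp_nat_mul]
    congr 1
    field_simp
  have h2 : (1 - 1 / (Q : ℝ) ^ r) < Real.exp (-(1 / (Q : ℝ) ^ r)) := by
    have hne : -(1 / (Q : ℝ) ^ r) ≠ 0 := by
      have : 0 < 1 / (Q : ℝ) ^ r := by positivity
      linarith
    have := Real.add_one_lt_exp hne
    linarith
  have h3 : 0 ≤ (1 - 1 / (Q : ℝ) ^ r) := by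
    have h4 : (1 : ℝ) ≤ (Q : ℝ) ^ r := one_le_pow₀ (by exact_mod_cast hQ)
    have : 1 / (Q : ℝ) ^ r ≤ 1 := by
      rw [div_le_one hQ']
      exact h4
    linarith
  have h4 : (1 - 1 / (Q : ℝ) ^ r) ^ T < Real.exp (-((T : ℝ) / (Q : ℝ) ^ r)) := by
    refine (pow_lt_pow_left₀ h2 h3 (by omega)).trans_le (le_of_eq ?_)
    rw [← Real.exp_nat_mul]
    congr 1
    ring
  have h5 : (X : ℝ) ^ r * (1 - 1 / (Q : ℝ) ^ r) ^ T < 1 := by
    calc (X : ℝ) ^ r * (1 - 1 / (Q : ℝ) ^ r) ^ T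
        ≤ Real.exp ((T : ℝ) / (Q : ℝ) ^ r) * (1 - 1 / (Q : ℝ) ^ r) ^ T :=
          mul_le_mul_of_nonneg_right h1 (pow_nonneg h3 T)
      _ < Real.exp ((T : ℝ) / (Q : ℝ) ^ r) * Real.exp (-((T : ℝ) / (Q : ℝ) ^ r)) :=
          mul_lt_mul_of_pos_left h4 (Real.exp_pos _)
      _ = 1 := by rw [← Real.exp_add]; simp
  have h6 : ((Q ^ r - 1 : ℕ) : ℝ) = (Q : ℝ) ^ r * (1 - 1 / (Q : ℝ) ^ r) := by
    rw [Nat.cast_sub (Nat.one_le_pow _ _ hQ)]
    push_cast
    field_simp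
  have h7 : ((X ^ r * (Q ^ r - 1) ^ T : ℕ) : ℝ) < ((Q ^ (r * T) : ℕ) : ℝ) := by
    rw [Nat.cast_mul, Nat.cast_pow, Nat.cast_pow, h6, mul_pow, Nat.cast_pow, pow_mul]
    have h8 : (0 : ℝ) < ((Q : ℝ) ^ r) ^ T := by positivity
    nlinarith
  exact_mod_cast h7

/-- `log s` is small -/
lemma log_le_tangent (s : ℝ) (hs : 0 < s) : Real.log s ≤ s / 4 + 2 * Real.log 2 - 1 := by
  have h := Real.log_le_sub_one_of_pos (show 0 < s / 4 by positivity)
  rw [Real.log_div hs.ne' (by norm_num)] at h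
  have h4 : Real.log 4 = 2 * Real.log 2 := by
    rw [show (4 : ℝ) = 2 ^ 2 by norm_num, Real.log_pow]
    norm_num
  linarith

lemma log_le_tangent8 (s : ℝ) (hs : 0 < s) : Real.log s ≤ s / 8 + 3 * Real.log 2 - 1 := by
  have h := Real.log_le_sub_one_of_pos (show 0 < s / 8 by positivity)
  rw [Real.log_div hs.ne' (by norm_num)] at h
  have h4 : Real.log 8 = 3 * Real.log 2 := by
    rw [show (8 : ℝ) = 2 ^ 3 by norm_num, Real.log_pow]
    norm_num
  linarith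

/-- `4 r t ≤ exp (t / (r 2^r))` for `t ≥ 4 r^2 2^r` -/
lemma thr1 {r t : ℕ} (hr : 1 ≤ r) (h : 4 * r ^ 2 * 2 ^ r ≤ t) :
    (4 * r * t : ℝ) ≤ Real.exp ((t : ℝ) / ((r : ℝ) * 2 ^ r)) := by
  have hr' : (1 : ℝ) ≤ r := by exact_mod_cast hr
  have h' : (4 * (r : ℝ) ^ 2 * 2 ^ r) ≤ t := by exact_mod_cast h
  have h2r : (0 : ℝ) < 2 ^ r := by positivity
  set s : ℝ := (t : ℝ) / ((r : ℝ) * 2 ^ r) with hs
  have hts : (t : ℝ) = s * (r * 2 ^ r) := by
    rw [hs]; field_simp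
  have hs4 : 4 * (r : ℝ) ≤ s := by
    rw [hs, le_div_iff₀ (by positivity)]
    nlinarith
  have hs0 : 0 < s := by linarith
  have hl2 := Real.log_two_lt_d9
  have hl2' := Real.log_two_gt_d9
  have key : Real.log (4 * r * t) ≤ s := by
    rw [hts]
    have e : (4 * (r : ℝ) * (s * (r * 2 ^ r))) = 4 * (r ^ 2 * (s * 2 ^ r)) := by ring
    rw [e, Real.log_mul (by norm_num) (by positivity), Real.log_mul (by positivity) (by positivity),
      Real.log_mul (by positivity) (by positivity), Real.log_pow, Real.log_pow]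
    have h4 : Real.log 4 = 2 * Real.log 2 := by
      rw [show (4 : ℝ) = 2 ^ 2 by norm_num, Real.log_pow]
      norm_num
    have h5 : Real.log r ≤ Real.log (s / 4) := Real.log_le_log (by linarith) (by linarith)
    rw [Real.log_div hs0.ne' (by norm_num), h4] at h5
    have h6 := log_le_tangent s hs0
    have h7 : (r : ℝ) * Real.log 2 ≤ s / 4 * Real.log 2 :=
      mul_le_mul_of_nonneg_right (by linarith) (by linarith)
    push_cast
    rw [h4]
    nlinarith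
  calc (4 * r * t : ℝ) = Real.exp (Real.log (4 * r * t)) := by
        rw [Real.exp_log]
        rw [hts]; positivity
    _ ≤ Real.exp s := Real.exp_le_exp.2 key

/-- `4 r t^2 ≤ exp (t / (r 2^r))` for `t ≥ 8 r^2 2^r` -/
lemma thr2 {r t : ℕ} (hr : 1 ≤ r) (h : 8 * r ^ 2 * 2 ^ r ≤ t) :
    (4 * r * (t : ℝ) ^ 2) ≤ Real.exp ((t : ℝ) / ((r : ℝ) * 2 ^ r)) := by
  have hr' : (1 : ℝ) ≤ r := by exact_mod_cast hr
  have h' : (8 * (r : ℝ) ^ 2 * 2 ^ r) ≤ t := by exact_mod_cast h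
  have h2r : (0 : ℝ) < 2 ^ r := by positivity
  set s : ℝ := (t : ℝ) / ((r : ℝ) * 2 ^ r) with hs
  have hts : (t : ℝ) = s * (r * 2 ^ r) := by
    rw [hs]; field_simp
  have hs4 : 8 * (r : ℝ) ≤ s := by
    rw [hs, le_div_iff₀ (by positivity)]
    nlinarith
  have hs0 : 0 < s := by linarith
  have hl2 := Real.log_two_lt_d9
  have hl2' := Real.log_two_gt_d9
  have key : Real.log (4 * r * (t : ℝ) ^ 2) ≤ s := by
    rw [hts]
    have e : (4 * (r : ℝ) * (s * (r * 2 ^ r)) ^ 2) = 4 * (r ^ 3 * (s ^ 2 * (2 ^ r) ^ 2)) := by ring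
    rw [e, Real.log_mul (by norm_num) (by positivity), Real.log_mul (by positivity) (by positivity),
      Real.log_mul (by positivity) (by positivity), Real.log_pow, Real.log_pow, Real.log_pow,
      Real.log_pow]
    have h4 : Real.log 4 = 2 * Real.log 2 := by
      rw [show (4 : ℝ) = 2 ^ 2 by norm_num, Real.log_pow]
      norm_num
    have h8 : Real.log 8 = 3 * Real.log 2 := by
      rw [show (8 : ℝ) = 2 ^ 3 by norm_num, Real.log_pow]
      norm_num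
    have h5 : Real.log r ≤ Real.log (s / 8) := Real.log_le_log (by linarith) (by linarith)
    rw [Real.log_div hs0.ne' (by norm_num), h8] at h5
    have h6 := log_le_tangent8 s hs0
    have h7 : (r : ℝ) * Real.log 2 ≤ s / 8 * Real.log 2 :=
      mul_le_mul_of_nonneg_right (by linarith) (by linarith)
    push_cast
    rw [h4]
    nlinarith
  calc (4 * r * (t : ℝ) ^ 2) = Real.exp (Real.log (4 * r * (t : ℝ) ^ 2)) := by
        rw [Real.exp_log]
        rw [hts]; positivity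
    _ ≤ Real.exp s := Real.exp_le_exp.2 key

/-- polynomials are smaller than exponentials -/
lemma thr3 (r p d : ℕ) (hr : 1 ≤ r) : ∃ t₀ : ℕ, ∀ t : ℕ, t₀ ≤ t →
    (4 * r * (p + 1) * ((t : ℝ) + 1) ^ d) ≤
      Real.exp ((t : ℝ) / ((r : ℝ) * ((p : ℝ) + 1) ^ r)) := by
  have hr' : (0 : ℝ) < r := by exact_mod_cast hr
  set a : ℝ := 1 / ((r : ℝ) * ((p : ℝ) + 1) ^ r) with ha
  have ha0 : 0 < a := by positivity
  have h1 := tendsto_rpow_mul_exp_neg_mul_atTop_nhds_zero (d : ℝ) a ha0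
  have h2 : Filter.Tendsto (fun t : ℕ => ((t : ℝ) + 1)) Filter.atTop Filter.atTop :=
    Filter.tendsto_atTop_add_const_right _ _ tendsto_natCast_atTop_atTop
  have h3 := h1.comp h2
  have hc : (0 : ℝ) < Real.exp (-a) / (4 * r * (p + 1)) := by positivity
  have h4 := h3.eventually (gt_mem_nhds hc)
  obtain ⟨t₀, ht₀⟩ := Filter.eventually_atTop.1 h4
  refine ⟨t₀, fun t ht => ?_⟩
  have h5 := ht₀ t ht
  simp only [Function.comp_apply, Real.rpow_natCast] at h5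
  rw [lt_div_iff₀ (by positivity)] at h5
  have h6 : Real.exp (-a * ((t : ℝ) + 1)) * Real.exp (a * ((t : ℝ) + 1)) = 1 := by
    rw [← Real.exp_add]; simp
  have h7 : Real.exp (-a) * Real.exp (a * ((t : ℝ) + 1)) = Real.exp ((t : ℝ) / ((r : ℝ) * ((p : ℝ) + 1) ^ r)) := by
    rw [← Real.exp_add, ha]
    congr 1
    field_simp
    ring
  rw [← h7]
  have h8 := mul_le_mul_of_nonneg_right h5.le (Real.exp_pos (a * ((t : ℝ) + 1))).le
  calc 4 * r * (p + 1) * ((t : ℝ) + 1) ^ d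
      = 4 * r * (p + 1) * ((t : ℝ) + 1) ^ d * (Real.exp (-a * ((t : ℝ) + 1)) * Real.exp (a * ((t : ℝ) + 1))) := by
        rw [h6, mul_one]
    _ = ((t : ℝ) + 1) ^ d * Real.exp (-a * ((t : ℝ) + 1)) * (4 * r * (p + 1)) * Real.exp (a * ((t : ℝ) + 1)) := by ring
    _ ≤ _ := h8

end Pool.Agent.J4.H99.LBC
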